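import Pool.Agent.Y221.AB.Ab2

/-!
An explicit bound for the exponents.
-/

set_option autoImplicit false
set_option maxHeartbeats 400000

namespace Pool.Agent.Y221.BD

open Pool.Agent.Y221.AB

theorem sq_le (m : ℕ) : 2 * (m * (m + 5)) ≤ 7 * 2 ^ m := by
  induction m with
  | zero => simp
  | succ m ih =>
    rcases Nat.lt_or_ge m 3 with h | h
    · interval_cases m <;> norm_num
    · rw [pow_succ]
      nlinarith

theorem lin_le (m : ℕ) : 4 * m ≤ 2 * 5 ^ m := by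
  induction m with
  | zero => simp
  | succ m ih =>
    rw [pow_succ]
    have : 1 ≤ 5 ^ m := Nat.one_le_pow _ _ (by norm_num)
    omega

theorem E3_le (n m : ℕ) :
    4 * E3 n (2 + n) m + (2 * n ^ 2 + 11 * n + 26) ≤ (2 * n ^ 2 + 11 * n + 26) * 5 ^ m := by
  induction m with
  | zero => simp [E3]
  | succ m ih =>
    rw [E3]
    unfold E2 E1
    calc 4 * (4 * (2 + n) + 1 + n + (6 + n + (1 + n * (1 + n))) + (2 + n) + E3 n (2 + n) m +
          (4 * E3 n (2 + n) m + 1 + n + (6 + n + (1 + n * (1 + n))))) + (2 * n ^ 2 + 11 * n + 26)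
        = 5 * (4 * E3 n (2 + n) m + (2 * n ^ 2 + 11 * n + 26)) := by ring
      _ ≤ 5 * ((2 * n ^ 2 + 11 * n + 26) * 5 ^ m) := Nat.mul_le_mul_left _ ih
      _ = (2 * n ^ 2 + 11 * n + 26) * 5 ^ (m + 1) := by ring

theorem Nbd_bound {n R : ℕ} (hn : n + 1 ≤ R) (m : ℕ) : Nbd n m ≤ 28 * R ^ 6 * 10 ^ m := by
  obtain ⟨T, hT⟩ : ∃ T, T = 5 ^ m := ⟨_, rfl⟩
  obtain ⟨U, hU⟩ : ∃ U, U = 2 ^ m := ⟨_, rfl⟩
  have hTU : 10 ^ m = T * U := by
    rw [hT, hU, ← mul_pow]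
    norm_num
  have hT1 : 1 ≤ T := by rw [hT]; exact Nat.one_le_pow _ _ (by norm_num)
  have hU1 : 1 ≤ U := by rw [hU]; exact Nat.one_le_pow _ _ (by norm_num)
  have hR1 : 1 ≤ R := by omega
  have h3 : 2 * E3 n (2 + n) m ≤ 13 * R ^ 2 * T := by
    have h1 := E3_le n m
    rw [← hT] at h1
    have h2 : 2 * n ^ 2 + 11 * n + 26 ≤ 26 * R ^ 2 := by nlinarith
    have h4 : (2 * n ^ 2 + 11 * n + 26) * T ≤ 26 * R ^ 2 * T := Nat.mul_le_mul_right _ h2
    nlinarith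
  have h4 : 2 * E4 n (2 + n) m ≤ R ^ 3 * (m * (15 * T)) := by
    unfold E4
    have h5 : 2 * (m * (2 + n) + E3 n (2 + n) m) ≤ R ^ 2 * (15 * T) := by
      have h6 : 2 * (m * (2 + n)) ≤ 2 * T * R ^ 2 := by
        have h7 := lin_le m
        rw [← hT] at h7
        have h8 : 2 + n ≤ 2 * R := by omega
        have h9 : m * (2 + n) ≤ m * (2 * R) := Nat.mul_le_mul_left _ h8
        have h10 : R ≤ R ^ 2 := by nlinarith
        have h11 : m * R ≤ m * R ^ 2 := Nat.mul_le_mul_left _ h10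
        have h12 : 4 * m * R ^ 2 ≤ 2 * T * R ^ 2 := Nat.mul_le_mul_right _ h7
        nlinarith
      nlinarith
    calc 2 * (n * (m * (m * (2 + n) + E3 n (2 + n) m)))
        = n * m * (2 * (m * (2 + n) + E3 n (2 + n) m)) := by ring
      _ ≤ R * m * (R ^ 2 * (15 * T)) :=
          Nat.mul_le_mul (Nat.mul_le_mul_right _ (by omega)) h5
      _ = R ^ 3 * (m * (15 * T)) := by ring
  have hp : pn n m + 3 ≤ (m + 5) * R := by
    unfold pn
    nlinarith
  have ha : an n ≤ R ^ 2 := by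
    unfold an
    nlinarith
  have hmm : 2 * (m * (m + 5)) ≤ 7 * U := by rw [hU]; exact sq_le m
  have hm2 : 4 * m ≤ 2 * T := by rw [hT]; exact lin_le m
  have h6 : 4 * (E4 n (2 + n) m * (pn n m + 3)) ≤ 105 * (R ^ 4 * (T * U)) := by
    calc 4 * (E4 n (2 + n) m * (pn n m + 3)) = 2 * ((2 * E4 n (2 + n) m) * (pn n m + 3)) := by ring
      _ ≤ 2 * ((R ^ 3 * (m * (15 * T))) * ((m + 5) * R)) :=
          Nat.mul_le_mul_left _ (Nat.mul_le_mul h4 hp)
      _ = 15 * (R ^ 4 * T) * (2 * (m * (m + 5))) := by ring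
      _ ≤ 15 * (R ^ 4 * T) * (7 * U) := Nat.mul_le_mul_left _ hmm
      _ = 105 * (R ^ 4 * (T * U)) := by ring
  have hTU1 : 1 ≤ T * U := Nat.one_le_iff_ne_zero.2 (by positivity)
  have hR4 : 1 ≤ R ^ 4 := Nat.one_le_pow _ _ hR1
  have hR6 : R ^ 4 ≤ R ^ 6 := Nat.pow_le_pow_right hR1 (by norm_num)
  have h7 : 4 * (E4 n (2 + n) m * (pn n m + 3) + 1) ≤ 109 * (R ^ 4 * (T * U)) := by
    have h8 : 1 ≤ R ^ 4 * (T * U) := Nat.one_le_iff_ne_zero.2 (by positivity)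
    omega
  have h8 : 4 * (an n * (E4 n (2 + n) m * (pn n m + 3) + 1)) ≤ 109 * (R ^ 6 * (T * U)) := by
    calc 4 * (an n * (E4 n (2 + n) m * (pn n m + 3) + 1))
        = an n * (4 * (E4 n (2 + n) m * (pn n m + 3) + 1)) := by ring
      _ ≤ R ^ 2 * (109 * (R ^ 4 * (T * U))) := Nat.mul_le_mul ha h7
      _ = 109 * (R ^ 6 * (T * U)) := by ring
  have h9 : 4 * m ≤ 2 * (R ^ 6 * (T * U)) := by
    have h10 : T ≤ R ^ 6 * (T * U) := by
      calc T = 1 * (T * 1) := by ring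
        _ ≤ R ^ 6 * (T * U) := Nat.mul_le_mul (hR4.trans hR6) (Nat.mul_le_mul_left _ hU1)
    omega
  have h10 : 4 * Nbd n m ≤ 4 * (28 * R ^ 6 * 10 ^ m) := by
    unfold Nbd
    rw [hTU]
    calc 4 * (m + an n * (E4 n (2 + n) m * (pn n m + 3) + 1))
        = 4 * m + 4 * (an n * (E4 n (2 + n) m * (pn n m + 3) + 1)) := by ring
      _ ≤ 2 * (R ^ 6 * (T * U)) + 109 * (R ^ 6 * (T * U)) := Nat.add_le_add h9 h8
      _ = 111 * (R ^ 6 * (T * U)) := by ring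
      _ ≤ 112 * (R ^ 6 * (T * U)) := Nat.mul_le_mul_right _ (by norm_num)
      _ = 4 * (28 * R ^ 6 * (T * U)) := by ring
  omega

/-- **The explicit bound.** -/
theorem NB_le (r s : ℕ) : NB r s ≤ 4 * 10 ^ s * (r + 1) ^ 7 := by
  have h1 : ∀ m, Nb r m ≤ 28 * (r + 1) ^ 7 * 10 ^ m := by
    intro m
    unfold Nb
    have h2 : ∀ n ∈ Finset.range (r + 1), Nbd n m ≤ 28 * (r + 1) ^ 6 * 10 ^ m := fun n hn =>
      Nbd_bound (Finset.mem_range.1 hn) m
    refine (Finset.sum_le_card_nsmul _ _ _ h2).trans ?_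
    rw [Finset.card_range, smul_eq_mul]
    apply le_of_eq
    ring
  have h2 : ∀ s, 1 + ∑ m ∈ Finset.range s, Nb r m ≤ 4 * 10 ^ s * (r + 1) ^ 7 := by
    intro s
    induction s with
    | zero =>
      simp only [Finset.range_zero, Finset.sum_empty, pow_zero, mul_one]
      have : 1 ≤ (r + 1) ^ 7 := Nat.one_le_pow _ _ (by omega)
      omega
    | succ s ih =>
      rw [Finset.sum_range_succ]
      have h3 := h1 s
      calc 1 + (∑ m ∈ Finset.range s, Nb r m + Nb r s)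
          = (1 + ∑ m ∈ Finset.range s, Nb r m) + Nb r s := by ring
        _ ≤ 4 * 10 ^ s * (r + 1) ^ 7 + 28 * (r + 1) ^ 7 * 10 ^ s := Nat.add_le_add ih h3
        _ = 32 * (10 ^ s * (r + 1) ^ 7) := by ring
        _ ≤ 40 * (10 ^ s * (r + 1) ^ 7) := Nat.mul_le_mul_right _ (by norm_num)
        _ = 4 * 10 ^ (s + 1) * (r + 1) ^ 7 := by rw [pow_succ]; ring
  exact h2 s

theorem cubic_le (s : ℕ) : (s + 4) * ((s - 1) * (s - 2) / 2) ≤ 4 * 10 ^ s := by
  have h1 : (s - 1) * (s - 2) / 2 ≤ s * s :=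
    (Nat.div_le_self _ _).trans (Nat.mul_le_mul (Nat.sub_le _ _) (Nat.sub_le _ _))
  refine (Nat.mul_le_mul_left _ h1).trans ?_
  have h2 : ∀ s : ℕ, (s + 4) * (s * s) ≤ 4 * 10 ^ s := by
    intro s
    induction s with
    | zero => simp
    | succ s ih =>
      rw [pow_succ]
      rcases Nat.eq_zero_or_pos s with h | h
      · subst h
        norm_num
      · nlinarith [Nat.mul_le_mul h h, Nat.mul_le_mul (Nat.mul_le_mul h h) h]
  exact h2 s

/-- both bounds -/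
theorem both {w r s N : ℕ} (hw : 1 ≤ w) (hN : w * (4 * 10 ^ s * (r + 1) ^ 7) ≤ N) :
    NB r s ≤ N ∧ r * (w * ((s + 4) * ((s - 1) * (s - 2) / 2))) ≤ N := by
  constructor
  · refine le_trans ?_ hN
    calc NB r s ≤ 1 * (4 * 10 ^ s * (r + 1) ^ 7) := by rw [one_mul]; exact NB_le r s
      _ ≤ _ := Nat.mul_le_mul_right _ hw
  · refine le_trans ?_ hN
    have h1 : r ≤ (r + 1) ^ 7 := (Nat.le_succ r).trans (Nat.le_self_pow (by norm_num) _)
    calc r * (w * ((s + 4) * ((s - 1) * (s - 2) / 2)))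
        = w * (((s + 4) * ((s - 1) * (s - 2) / 2)) * r) := by ring
      _ ≤ w * (4 * 10 ^ s * (r + 1) ^ 7) :=
          Nat.mul_le_mul_left _ (Nat.mul_le_mul (cubic_le s) h1)

end Pool.Agent.Y221.BD
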