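import Pool.Agent.Y221.BD.Cv
import Pool.Agent.Y221.BD.Bd
import Pool.Agent.TH466.QG.Lang

/-!
The Green-Griffiths-Lang conjecture for varieties dominated by systems of high powers.
-/

set_option autoImplicit false
set_option maxHeartbeats 400000
set_option linter.overlappingInstances false
set_option linter.unusedSectionVars false

open FF IntermediateField Filter

namespace Pool.Agent.Y221.BD

open Pool.Agent.W602.GT Pool.Agent.TH466.QG
open Pool.Agent.W619.PQ (IsUniruled)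

theorem form_of_high {k : Type} [Field k] {n : ℕ} {ι : Type}
    {F : ι → MvPolynomial (Fin (n + 1)) k} {s N : ℕ} (hF : HighPowers s N F) (e : ι) :
    IsForm (F e) := by
  rcases hF with h | h
  · obtain ⟨r, d, l, -, -, hFe⟩ := h e
    refine ⟨d, ?_⟩
    rw [hFe]
    refine MvPolynomial.IsHomogeneous.sum _ _ _ fun j _ => ?_
    have h1 : (∑ i, MvPolynomial.C (l j i) * MvPolynomial.X i :
        MvPolynomial (Fin (n + 1)) k).IsHomogeneous 1 := by
      refine MvPolynomial.IsHomogeneous.sum _ _ _ fun i _ => ?_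
      have h2 := (MvPolynomial.isHomogeneous_C (Fin (n + 1)) (l j i)).mul
        (MvPolynomial.isHomogeneous_X k i)
      rwa [zero_add] at h2
    have h3 := h1.pow d
    rwa [one_mul] at h3
  · exact (h e).1

/-- subvarieties which do not move -/
theorem no_moves {k : Type} [Field k] [CharZero k] [IsAlgClosed k] {n : ℕ} {ι : Type}
    {F : ι → MvPolynomial (Fin (n + 1)) k} {s N : ℕ} (hF : HighPowers s N F) {K : Type} [Field K]
    [Algebra k K] {w : ℕ} {y : Fin (n + 1) → K} (hy : SubVar F K w y)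
    (h : ¬ RatCurve F y ∨ IsComponent F y ∧ ¬ Ruled k K) : ¬ LinMv F y ∧ ¬ WtMv F y := by
  rcases h with h | ⟨hc, h⟩
  · exact ⟨fun h1 => h h1.curve, fun h1 => h (h1.curve (form_of_high hF))⟩
  · exact ⟨fun h1 => h (h1.ruled hy hc), fun h1 => h (h1.ruled hy hc)⟩

/-- **The main theorem.** -/
theorem ggl_dominated {n : ℕ} {ι : Type} [Finite ι] {F : ι → MvPolynomial (Fin (n + 1)) ℂ}
    {s r w N : ℕ} (hF : HighPowers s N F) (hw : 1 ≤ w)
    (hN : w * (4 * 10 ^ s * (r + 1) ^ 7) ≤ N) {K : Type} [Field K] [Algebra ℂ K]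
    {y : Fin (n + 1) → K} (hy : SubVar F K w y)
    (h : ¬ RatCurve F y ∨ IsComponent F y ∧ ¬ Ruled ℂ K)
    {K' L : Type} [Field K'] [Field L] [Algebra ℂ K'] [Algebra ℂ L]
    [Algebra K K'] [Algebra L K'] [IsScalarTower ℂ K K'] [IsScalarTower ℂ L K']
    [FiniteDimensional K K'] [FiniteDimensional L K'] (hr : Module.finrank L K' ≤ r)
    {M : ℕ} {x : Fin (M + 1) → L} (hx : x ≠ 0) (hgen : coords ℂ x = ⊤) :
    GeneralType ℂ L w ∧ StronglyGeneral ℂ x ∧ PseudoBrody x := by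
  obtain ⟨hN2, hN3⟩ := both hw hN
  have hN1 : 1 ≤ N := (Pool.Agent.Y221.AB.one_le_NB r s).trans hN2
  obtain ⟨hL, hW⟩ := no_moves hF hy h
  have h1 : StronglyGeneral ℂ x := strong_alg (K' := K') hF hN1 hy hL hW hN3 hr hx hgen
  have hdim : Algebra.trdeg ℂ L = w := by
    rw [← hy.dim, ← trdeg_alg (E := K) (K := K'), trdeg_alg (E := L) (K := K')]
  exact ⟨general_of_strongly hx hgen hw hdim h1, h1,
    brody_main (K' := K') hF hN2 hy hL hW hr hx hgen⟩

/-- **The equivalences.** -/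
theorem ggl_iff {n : ℕ} {ι : Type} [Finite ι] {F : ι → MvPolynomial (Fin (n + 1)) ℂ}
    {s r w N : ℕ} (hF : HighPowers s N F) (hw : 1 ≤ w)
    (hN : w * (4 * 10 ^ s * (r + 1) ^ 7) ≤ N) {K : Type} [Field K] [Algebra ℂ K]
    {y : Fin (n + 1) → K} (hy : SubVar F K w y) (hcomp : IsComponent F y)
    {L : Type} [Field L] [Algebra ℂ L] [Algebra L K] [IsScalarTower ℂ L K]
    [FiniteDimensional L K] (hr : Module.finrank L K ≤ r) {M : ℕ} {x : Fin (M + 1) → L}
    (hx : x ≠ 0) (hgen : coords ℂ x = ⊤) :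
    (GeneralType ℂ L w ↔ PseudoBrody x) ∧ (StronglyGeneral ℂ x ↔ PseudoBrody x) ∧
      (¬ IsUniruled ℂ L w ↔ PseudoBrody x) := by
  obtain ⟨hN2, hN3⟩ := both hw hN
  have hN1 : 1 ≤ N := (Pool.Agent.Y221.AB.one_le_NB r s).trans hN2
  obtain ⟨h1, h2⟩ := lang_iff hF hN1 hw hy hcomp hN3 hr hx hgen
  have h3 : GeneralType ℂ L w ↔ PseudoBrody x := by
    by_cases hR : Ruled ℂ K
    · have h4 : ¬ PseudoBrody x := not_brody_of_ruled hR hx hgen
      have h5 : ¬ GeneralType ℂ L w := by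
        have hK : Algebra.EssFiniteType ℂ K := SubVar.ess hy
        obtain ⟨-, h6, -⟩ := neg_below (L := L) hy.dim hR
        exact fun h => h6 (psef_of_kodGe (kod_of_general h))
      exact ⟨fun h => absurd h h5, fun h => absurd h h4⟩
    · obtain ⟨h4, -, h5⟩ := ggl_dominated (K' := K) (L := L) hF hw hN hy (Or.inr ⟨hcomp, hR⟩) hr
        hx hgen
      exact ⟨fun _ => h5, fun _ => h4⟩
  exact ⟨h3, h1.symm.trans h3, h2.symm.trans h3⟩

end Pool.Agent.Y221.BD
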