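import Pool.Agent.Y221.BD.Str

/-!
Entire curves in varieties which are dominated by ruled varieties.
-/

set_option autoImplicit false
set_option maxHeartbeats 400000
set_option linter.overlappingInstances false
set_option linter.unusedSectionVars false

open FF IntermediateField Filter

namespace Pool.Agent.Y221.BD

open Pool.Agent.W602.GT Pool.Agent.TH466.QG

/-- evaluation of a form at a polynomial point -/
theorem eval_poly {M : ℕ} (p : Fin (M + 1) → Polynomial ℂ) (G : MvPolynomial (Fin (M + 1)) ℂ)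
    (t : ℂ) : (MvPolynomial.aeval p G).eval t = MvPolynomial.eval (fun i => (p i).eval t) G := by
  have h1 : (Polynomial.aeval t : Polynomial ℂ →ₐ[ℂ] ℂ).comp (MvPolynomial.aeval p) =
      MvPolynomial.aeval (fun i => (p i).eval t) := by
    apply MvPolynomial.algHom_ext
    intro i
    simp
  have h2 := DFunLike.congr_fun h1 G
  rw [AlgHom.comp_apply, Polynomial.coe_aeval_eq_eval] at h2
  rw [h2, MvPolynomial.aeval_eq_eval]

/-- a polynomial curve gives an entire curve -/
theorem curve_of_poly {M : ℕ} {L : Type} [Field L] [Algebra ℂ L] {x : Fin (M + 1) → L}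
    (p : Fin (M + 1) → Polynomial ℂ)
    (hp : ∀ G : MvPolynomial (Fin (M + 1)) ℂ, IsForm G → val x G = 0 → MvPolynomial.aeval p G = 0)
    {i j : Fin (M + 1)} {a b : ℂ} (hab : (p i).eval a * (p j).eval b ≠ (p j).eval a * (p i).eval b)
    {R : MvPolynomial (Fin (M + 1)) ℂ} (hR : IsForm R) (hRp : MvPolynomial.aeval p R ≠ 0) :
    ∃ f : Fin (M + 1) → ℂ → ℂ, EntireCurve x f ∧
      ∃ t, MvPolynomial.eval (fun i => f i t) R ≠ 0 := by
  classical
  obtain ⟨g, hg⟩ : ∃ g : Polynomial ℂ, Ideal.span (Set.range p) = Ideal.span {g} :=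
    (IsPrincipalIdealRing.principal (Ideal.span (Set.range p))).principal
  have hdvd : ∀ i, g ∣ p i := by
    intro i
    rw [← Ideal.mem_span_singleton, ← hg]
    exact Ideal.subset_span ⟨i, rfl⟩
  choose e he using hdvd
  have hg0 : g ≠ 0 := by
    intro h0
    apply hab
    rw [he i, he j, h0]
    simp
  obtain ⟨c, hc⟩ : ∃ c : Fin (M + 1) → Polynomial ℂ, ∑ i, c i * p i = g := by
    have h1 : g ∈ Ideal.span (Set.range p) := by
      rw [hg]
      exact Ideal.mem_span_singleton_self g
    exact Ideal.mem_span_range_iff_exists_fun.1 h1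
  have hc1 : ∑ i, c i * e i = 1 := by
    apply mul_left_cancel₀ hg0
    rw [mul_one, Finset.mul_sum]
    conv_rhs => rw [← hc]
    refine Finset.sum_congr rfl fun i _ => ?_
    conv_rhs => rw [he i]
    ring
  have hpe : ∀ (G : MvPolynomial (Fin (M + 1)) ℂ) {d : ℕ}, G.IsHomogeneous d → ∀ t,
      (MvPolynomial.aeval p G).eval t = g.eval t ^ d * (MvPolynomial.aeval e G).eval t := by
    intro G d hG t
    rw [eval_poly, eval_poly]
    have h1 := val_smul hG (g.eval t) (fun i => (e i).eval t)
    have h2 : (fun i => g.eval t * (e i).eval t) = fun i => (p i).eval t := by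
      funext i
      rw [he i, Polynomial.eval_mul]
    rw [h2] at h1
    unfold Pool.Agent.W602.GT.val at h1
    rw [MvPolynomial.aeval_eq_eval, MvPolynomial.aeval_eq_eval] at h1
    exact h1
  refine ⟨fun i t => (e i).eval t, ⟨fun i => (e i).differentiable, fun t => ?_, ?_, ?_⟩, ?_⟩
  · by_contra hcon
    push Not at hcon
    have h1 := congrArg (Polynomial.eval t) hc1
    rw [Polynomial.eval_finsetSum, Polynomial.eval_one] at h1
    rw [Finset.sum_eq_zero fun i _ => by rw [Polynomial.eval_mul, hcon i, mul_zero]] at h1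
    exact zero_ne_one h1
  · intro G hG hxG t
    rw [← eval_poly]
    have h0 := hp G hG hxG
    obtain ⟨d, hd⟩ := hG
    have h1 : g ^ d * MvPolynomial.aeval e G = 0 := by
      apply Polynomial.funext
      intro t
      rw [Polynomial.eval_mul, Polynomial.eval_pow, ← hpe G hd, h0]
    rw [(mul_eq_zero.1 h1).resolve_left (pow_ne_zero _ hg0), Polynomial.eval_zero]
  · refine ⟨i, j, a, b, fun h => hab ?_⟩
    rw [he i, he j]
    simp only [Polynomial.eval_mul]
    linear_combination g.eval a * g.eval b * h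
  · by_contra hcon
    push Not at hcon
    apply hRp
    obtain ⟨d, hd⟩ := hR
    apply Polynomial.funext
    intro t
    rw [hpe R hd, eval_poly, hcon t, mul_zero, Polynomial.eval_zero]

/-- specialization of a polynomial point over an extension -/
theorem poly_spec {M : ℕ} {C : Type} [Field C] [Algebra ℂ C] (P : Fin (M + 1) → Polynomial C)
    {i j : Fin (M + 1)} {d d' : ℕ}
    (hm : (P i).coeff d * (P j).coeff d' ≠ (P j).coeff d * (P i).coeff d')
    {R : MvPolynomial (Fin (M + 1)) ℂ} (hR : MvPolynomial.aeval P R ≠ 0) :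
    ∃ p : Fin (M + 1) → Polynomial ℂ,
      (∀ G : MvPolynomial (Fin (M + 1)) ℂ, MvPolynomial.aeval P G = 0 →
        MvPolynomial.aeval p G = 0) ∧ MvPolynomial.aeval p R ≠ 0 ∧
      (p i).coeff d * (p j).coeff d' ≠ (p j).coeff d * (p i).coeff d' := by
  classical
  obtain ⟨D, hD⟩ : ∃ D, ∀ i, (P i).natDegree < D := by
    refine ⟨∑ i, (P i).natDegree + 1, fun i => ?_⟩
    have := Finset.single_le_sum (f := fun i => (P i).natDegree) (fun _ _ => Nat.zero_le _)
      (Finset.mem_univ i)
    exact Nat.lt_succ_of_le this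
  let σ : Type := Fin (M + 1) × Fin D
  let z : σ → C := fun q => (P q.1).coeff q.2
  let PP : Fin (M + 1) → Polynomial (MvPolynomial σ ℂ) := fun i =>
    ∑ l : Fin D, Polynomial.C (MvPolynomial.X (i, l)) * Polynomial.X ^ (l : ℕ)
  let ev : ∀ (A : Type) [Field A] [Algebra ℂ A] (u : σ → A),
      Polynomial (MvPolynomial σ ℂ) →ₐ[ℂ] Polynomial A := fun A _ _ u =>
    Polynomial.mapAlgHom (MvPolynomial.aeval u)
  have hevP : ∀ i, ev C z (PP i) = P i := by
    intro i
    simp only [ev, PP, z]
    rw [map_sum, Polynomial.as_sum_range' (P i) D (hD i), ← Fin.sum_univ_eq_sum_range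
      (fun l => Polynomial.monomial l ((P i).coeff l))]
    refine Finset.sum_congr rfl fun l _ => ?_
    rw [map_mul, map_pow, Polynomial.coe_mapAlgHom, Polynomial.map_C, Polynomial.map_X,
      ← Polynomial.C_mul_X_pow_eq_monomial]
    simp
  have hcomp : ∀ (A : Type) [Field A] [Algebra ℂ A] (u : σ → A)
      (G : MvPolynomial (Fin (M + 1)) ℂ), ev A u (MvPolynomial.aeval PP G) =
        MvPolynomial.aeval (fun i => ev A u (PP i)) G := by
    intro A _ _ u G
    have h1 : (ev A u).comp (MvPolynomial.aeval PP) =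
        MvPolynomial.aeval (fun i => ev A u (PP i)) := by
      apply MvPolynomial.algHom_ext
      intro i
      rw [AlgHom.comp_apply, MvPolynomial.aeval_X, MvPolynomial.aeval_X]
    exact DFunLike.congr_fun h1 G
  have hco : ∀ (A : Type) [Field A] [Algebra ℂ A] (u : σ → A) (Q : Polynomial (MvPolynomial σ ℂ))
      (l : ℕ), (ev A u Q).coeff l = MvPolynomial.aeval u (Q.coeff l) := by
    intro A _ _ u Q l
    simp only [ev]
    rw [Polynomial.coe_mapAlgHom, Polynomial.coeff_map]
    rfl
  have hPc : (fun i => ev C z (PP i)) = P := funext hevP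
  obtain ⟨l, hl⟩ : ∃ l, MvPolynomial.aeval z ((MvPolynomial.aeval PP R).coeff l) ≠ 0 := by
    by_contra hcon
    push Not at hcon
    apply hR
    rw [← hPc, ← hcomp]
    ext l
    rw [hco, hcon l, Polynomial.coeff_zero]
  obtain ⟨H, hH⟩ : ∃ H : MvPolynomial σ ℂ, H = (MvPolynomial.aeval PP R).coeff l *
    ((PP i).coeff d * (PP j).coeff d' - (PP j).coeff d * (PP i).coeff d') := ⟨_, rfl⟩
  have hH0 : MvPolynomial.aeval z H ≠ 0 := by
    rw [hH, map_mul, map_sub, map_mul, map_mul, ← hco C z (PP i), ← hco C z (PP j),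
      ← hco C z (PP j), ← hco C z (PP i), hevP, hevP]
    exact mul_ne_zero hl (sub_ne_zero.2 hm)
  obtain ⟨z0, hz0, hrel⟩ := specialise z H hH0
  rw [hH, map_mul, map_sub, map_mul, map_mul, ← hco ℂ z0 (PP i), ← hco ℂ z0 (PP j),
      ← hco ℂ z0 (PP j), ← hco ℂ z0 (PP i)] at hz0
  refine ⟨fun i => ev ℂ z0 (PP i), fun G hG => ?_, fun h0 => ?_, ?_⟩
  · rw [← hcomp]
    ext l
    rw [hco, Polynomial.coeff_zero]
    apply hrel
    rw [← hco, hcomp, hPc, hG, Polynomial.coeff_zero]
  · apply left_ne_zero_of_mul hz0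
    rw [← hco, hcomp, h0, Polynomial.coeff_zero]
  · exact sub_ne_zero.1 (right_ne_zero_of_mul hz0)

/-- **Entire curves through the general points of the varieties dominated by a ruled variety.** -/
theorem curve_of_ruled {K L : Type} [Field K] [Field L] [Algebra ℂ K] [Algebra ℂ L] [Algebra L K]
    [IsScalarTower ℂ L K] [Algebra.IsAlgebraic L K] (hR : Ruled ℂ K) {M : ℕ}
    {x : Fin (M + 1) → L} (hx : x ≠ 0) (hgen : coords ℂ x = ⊤)
    {R : MvPolynomial (Fin (M + 1)) ℂ} (hRf : IsForm R) (hRx : val x R ≠ 0) :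
    ∃ f : Fin (M + 1) → ℂ → ℂ, EntireCurve x f ∧
      ∃ t, MvPolynomial.eval (fun i => f i t) R ≠ 0 := by
  classical
  obtain ⟨C, σ, hσ, htop⟩ := hR
  obtain ⟨i1, hi1'⟩ := Function.ne_iff.1 hx
  have hi1 : x i1 ≠ 0 := hi1'
  -- a coordinate which is not in `C`
  obtain ⟨i2, hi2⟩ : ∃ i, algebraMap L K (x i / x i1) ∉ C := by
    by_contra hcon
    push Not at hcon
    have h1 : Algebra.IsAlgebraic C K := alg_over (adjoin_norm hgen hi1) C fun m =>
      isAlgebraic_algebraMap (⟨_, hcon m⟩ : C)
    exact hσ (h1.isAlgebraic σ)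
  -- polynomials
  have hrep : ∀ i, ∃ r s : Polynomial C, Polynomial.aeval σ s ≠ 0 ∧
      algebraMap L K (x i / x i1) * Polynomial.aeval σ s = Polynomial.aeval σ r := by
    intro i
    have h1 : algebraMap L K (x i / x i1) ∈ C⟮σ⟯ := by
      rw [htop]
      exact IntermediateField.mem_top
    obtain ⟨r, s, h2⟩ := IntermediateField.mem_adjoin_simple_iff C _ |>.1 h1
    by_cases h3 : Polynomial.aeval σ s = 0
    · refine ⟨0, 1, by simp, ?_⟩
      rw [h2, h3, div_zero, zero_mul, map_zero]
    · refine ⟨r, s, h3, ?_⟩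
      rw [h2]
      field_simp
  choose r s hs hrs using hrep
  let Q : Polynomial C := ∏ j, s j
  let P : Fin (M + 1) → Polynomial C := fun i => r i * ∏ j ∈ Finset.univ.erase i, s j
  have hQ : ∀ i, Q = s i * ∏ j ∈ Finset.univ.erase i, s j := fun i =>
    (Finset.mul_prod_erase _ _ (Finset.mem_univ i)).symm
  have hQ0 : Polynomial.aeval σ Q ≠ 0 := by
    simp only [Q]
    rw [map_prod]
    exact Finset.prod_ne_zero_iff.2 fun j _ => hs j
  have hPQ : ∀ i, Polynomial.aeval σ (P i) =
      Polynomial.aeval σ Q * algebraMap L K (x i / x i1) := by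
    intro i
    simp only [P]
    rw [hQ i, map_mul, map_mul, ← hrs i]
    ring
  have hinj : Function.Injective (Polynomial.aeval σ : Polynomial C →ₐ[C] K) :=
    transcendental_iff_injective.1 hσ
  have hPi1 : P i1 = Q := by
    apply hinj
    rw [hPQ, div_self hi1, map_one, mul_one]
  -- forms
  have hval : ∀ (G : MvPolynomial (Fin (M + 1)) ℂ) {d : ℕ}, G.IsHomogeneous d →
      Polynomial.aeval σ (MvPolynomial.aeval P G) =
        (Polynomial.aeval σ Q / algebraMap L K (x i1)) ^ d * algebraMap L K (val x G) := by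
    intro G d hG
    have h1 : ((Polynomial.aeval σ : Polynomial C →ₐ[C] K).restrictScalars ℂ).comp
        (MvPolynomial.aeval P) = MvPolynomial.aeval fun i => Polynomial.aeval σ (P i) := by
      apply MvPolynomial.algHom_ext
      intro i
      rw [AlgHom.comp_apply, MvPolynomial.aeval_X, MvPolynomial.aeval_X]
      rfl
    have h2 := DFunLike.congr_fun h1 G
    have h3 : (fun i => Polynomial.aeval σ (P i)) =
        fun i => (Polynomial.aeval σ Q / algebraMap L K (x i1)) * algebraMap L K (x i) := by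
      funext i
      rw [hPQ, map_div₀]
      ring
    rw [h3] at h2
    refine Eq.trans h2 ?_
    have h4 := val_smul (L := K) hG (Polynomial.aeval σ Q / algebraMap L K (x i1))
      (fun i => algebraMap L K (x i))
    refine Eq.trans h4 ?_
    congr 1
    unfold Pool.Agent.W602.GT.val
    exact MvPolynomial.aeval_algebraMap_apply K x G
  have hc0 : Polynomial.aeval σ Q / algebraMap L K (x i1) ≠ 0 :=
    div_ne_zero hQ0 ((map_ne_zero _).2 hi1)
  have hzero : ∀ G : MvPolynomial (Fin (M + 1)) ℂ, IsForm G →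
      (MvPolynomial.aeval P G = 0 ↔ val x G = 0) := by
    rintro G ⟨d, hG⟩
    constructor
    · intro h
      have h1 := hval G hG
      rw [h, map_zero] at h1
      have h2 := (mul_eq_zero.1 h1.symm).resolve_left (pow_ne_zero _ hc0)
      exact (map_eq_zero _).1 h2
    · intro h
      apply hinj
      rw [hval G hG, h, map_zero, mul_zero, map_zero]
  -- a minor
  obtain ⟨d, d', hm⟩ : ∃ d d', (P i2).coeff d * (P i1).coeff d' ≠
      (P i1).coeff d * (P i2).coeff d' := by
    by_contra hcon
    push Not at hcon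
    apply hi2
    have hQ' : P i1 ≠ 0 := by
      rw [hPi1]
      rintro h0
      rw [h0, map_zero] at hQ0
      exact hQ0 rfl
    obtain ⟨d', hd'⟩ : ∃ d', (P i1).coeff d' ≠ 0 := by
      by_contra h
      push Not at h
      exact hQ' (Polynomial.ext fun l => by rw [h l, Polynomial.coeff_zero])
    have h1 : P i2 = Polynomial.C ((P i2).coeff d' / (P i1).coeff d') * P i1 := by
      ext1 l
      rw [Polynomial.coeff_C_mul]
      have := hcon l d'
      field_simp
      linear_combination this
    have h2 : Polynomial.aeval σ (P i2) = algebraMap C K ((P i2).coeff d' / (P i1).coeff d') *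
        Polynomial.aeval σ (P i1) := by
      have h3 := congrArg (Polynomial.aeval σ) h1
      refine h3.trans ?_
      rw [map_mul (Polynomial.aeval σ), Polynomial.aeval_C]
    rw [hPQ i2, hPi1] at h2
    have h3 : algebraMap L K (x i2 / x i1) =
        algebraMap C K ((P i2).coeff d' / Q.coeff d') := by
      apply mul_left_cancel₀ hQ0
      rw [h2]
      ring
    rw [h3]
    exact ((P i2).coeff d' / Q.coeff d').2
  obtain ⟨p, hp1, hp2, hp3⟩ := poly_spec P hm (R := R) (fun h0 => hRx ((hzero R hRf).1 h0))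
  -- nonconstant
  have hab : ∃ a b, (p i2).eval a * (p i1).eval b ≠ (p i1).eval a * (p i2).eval b := by
    by_contra hcon
    push Not at hcon
    apply hp3
    by_cases h0 : p i1 = 0
    · rw [h0]
      simp
    · obtain ⟨b, hb⟩ : ∃ b, (p i1).eval b ≠ 0 := by
        by_contra h
        push Not at h
        exact h0 (Polynomial.funext fun t => by rw [h t, Polynomial.eval_zero])
      have h1 : p i2 = Polynomial.C ((p i2).eval b / (p i1).eval b) * p i1 := by
        apply Polynomial.funext
        intro t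
        rw [Polynomial.eval_mul, Polynomial.eval_C]
        have := hcon t b
        field_simp
        linear_combination this
      rw [h1, Polynomial.coeff_C_mul, Polynomial.coeff_C_mul]
      ring
  obtain ⟨a, b, hab⟩ := hab
  exact curve_of_poly p (fun G hG hxG => hp1 G ((hzero G hG).2 hxG)) hab hRf hp2

/-- the varieties dominated by a ruled variety are not pseudo-Brody hyperbolic -/
theorem not_brody_of_ruled {K L : Type} [Field K] [Field L] [Algebra ℂ K] [Algebra ℂ L]
    [Algebra L K] [IsScalarTower ℂ L K] [Algebra.IsAlgebraic L K] (hR : Ruled ℂ K) {M : ℕ}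
    {x : Fin (M + 1) → L} (hx : x ≠ 0) (hgen : coords ℂ x = ⊤) : ¬ PseudoBrody x := by
  rintro ⟨R, hRf, hRx, h⟩
  obtain ⟨f, hf, t, ht⟩ := curve_of_ruled hR hx hgen hRf hRx
  exact ht (h f hf t)

end Pool.Agent.Y221.BD
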