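import Mathlib
import Pool.Agent.W602.GT.SpDefs

/-!
Entire curves in projective varieties, given by their generic points.
-/

set_option autoImplicit false

namespace Pool.Agent.Y221.BD

open Pool.Agent.W602.GT

/-- `f 0, ..., f M` are entire functions without common zeros, and `t ↦ (f 0 t : ... : f M t)` is
a nonconstant entire curve in the projective variety with generic point `x` (the variety of the
forms which vanish at `x`). -/
structure EntireCurve {M : ℕ} {L : Type} [Field L] [Algebra ℂ L] (x : Fin (M + 1) → L)
    (f : Fin (M + 1) → ℂ → ℂ) : Prop where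
  hol : ∀ i, Differentiable ℂ (f i)
  ne : ∀ t, ∃ i, f i t ≠ 0
  mem : ∀ G : MvPolynomial (Fin (M + 1)) ℂ, IsForm G → val x G = 0 →
    ∀ t, MvPolynomial.eval (fun i => f i t) G = 0
  nonconst : ∃ i j a b, f i a * f j b ≠ f j a * f i b

/-- The projective variety with generic point `x` is pseudo-Brody hyperbolic: the nonconstant
entire curves lie in a proper closed subset (in the zero set of a form `R` which does not vanish
at the generic point). -/
def PseudoBrody {M : ℕ} {L : Type} [Field L] [Algebra ℂ L] (x : Fin (M + 1) → L) : Prop :=
  ∃ R : MvPolynomial (Fin (M + 1)) ℂ, IsForm R ∧ val x R ≠ 0 ∧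
    ∀ f, EntireCurve x f → ∀ t, MvPolynomial.eval (fun i => f i t) R = 0

end Pool.Agent.Y221.BD
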