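import Pool.Agent.Y221.BD.Ana
import Pool.Agent.Y221.BD.Defs

/-!
Subvarieties and entire curves of the varieties which are dominated by a closed subvariety of a
system of high powers without motions.
-/

set_option autoImplicit false
set_option maxHeartbeats 400000
set_option linter.overlappingInstances false
set_option linter.unusedSectionVars false

open FF IntermediateField Filter

namespace Pool.Agent.Y221.BD

open Pool.Agent.W602.GT Pool.Agent.TH466.QG Pool.Agent.Y221.AB Pool.Agent.TH143.EL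

/-- **Subvarieties.** -/
theorem strong_alg {k : Type} [Field k] [CharZero k] [IsAlgClosed k] {n : ℕ} {ι : Type}
    [Finite ι] {F : ι → MvPolynomial (Fin (n + 1)) k} {s N : ℕ} (hF : HighPowers s N F)
    (hN1 : 1 ≤ N) {K : Type} [Field K] [Algebra k K] {w : ℕ} {y : Fin (n + 1) → K}
    (hy : SubVar F K w y) (hL : ¬ LinMv F y) (hW : ¬ WtMv F y) {r : ℕ}
    (hN : r * (w * ((s + 4) * ((s - 1) * (s - 2) / 2))) ≤ N)
    {K' L : Type} [Field K'] [Field L] [Algebra k K'] [Algebra k L] [Algebra K K']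
    [Algebra L K'] [IsScalarTower k K K'] [IsScalarTower k L K'] [Algebra.IsAlgebraic K K']
    [FiniteDimensional L K'] (hr : Module.finrank L K' ≤ r) {M : ℕ} {x : Fin (M + 1) → L}
    (hx : x ≠ 0) (hgen : coords k x = ⊤) : StronglyGeneral k x := by
  classical
  obtain ⟨i1, hi1'⟩ := Function.ne_iff.1 hx
  have hi1 : x i1 ≠ 0 := hi1'
  obtain ⟨i0, hi0'⟩ := Function.ne_iff.1 hy.ne
  have hi0 : y i0 ≠ 0 := hi0'
  obtain ⟨Θ1, hΘ1, hopen⟩ := open_alg hF hN1 hy.mem hi0 hL hW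
  obtain ⟨Θ2, hΘ2, halgs⟩ := alg_spec (K' := K') hy.gen hi0
    (fun m => algebraMap L K' (x m / x i1))
  obtain ⟨H, hH, hspread⟩ := spread (K' := K') (adjoin_norm hgen hi1)
    (Θ := algebraMap K K' '' (Θ1 ∪ (Θ2 ∪ Set.range y)))
    ((hΘ1.union (hΘ2.union (Set.finite_range y))).image _)
  refine ⟨MvPolynomial.X i1 * hz i1 H, ?_, ?_, ?_⟩
  · obtain ⟨d, hd⟩ := hz_form i1 H
    exact ⟨1 + d, (MvPolynomial.isHomogeneous_X k i1).mul hd⟩
  · change MvPolynomial.aeval x _ ≠ 0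
    rw [map_mul, MvPolynomial.aeval_X]
    refine mul_ne_zero hi1 ?_
    change val x _ ≠ 0
    rw [val_hz H hi1]
    exact mul_ne_zero (pow_ne_zero _ hi1) hH
  intro E _ _ w' z hz hzR hw1 htr
  change MvPolynomial.aeval z _ ≠ 0 at hzR
  rw [map_mul, MvPolynomial.aeval_X] at hzR
  have hz1 : z i1 ≠ 0 := left_ne_zero_of_mul hzR
  have hzH : MvPolynomial.aeval (fun i => z i / z i1) H ≠ 0 := by
    have h1 : val z (Pool.Agent.TH466.QG.hz i1 H) ≠ 0 := right_ne_zero_of_mul hzR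
    rw [val_hz H hz1] at h1
    exact right_ne_zero_of_mul h1
  have hsp : ∀ G : MvPolynomial (Fin (M + 1)) k,
      MvPolynomial.aeval (fun i => x i / x i1) G = 0 →
      MvPolynomial.aeval (fun i => z i / z i1) G = 0 := by
    intro G hG
    have h1 : val x (Pool.Agent.TH466.QG.hz i1 G) = 0 := by
      rw [val_hz G hi1, hG, mul_zero]
    have h2 := hz.spec _ (hz_form i1 G) h1
    rw [val_hz G hz1] at h2
    exact (mul_eq_zero.1 h2).resolve_left (pow_ne_zero _ hz1)
  obtain ⟨K'', i1', i2', i3', i4', i5', hrk, S, hSx, hSΘ⟩ := hspread E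
    (fun i => z i / z i1) hsp hzH
  have hSy : ∀ i, ∃ t, S.T (algebraMap K K' (y i)) t := fun i =>
    hSΘ _ ⟨y i, Or.inr (Or.inr ⟨i, rfl⟩), rfl⟩
  choose y' hy' using hSy
  have halg : Algebra.IsAlgebraic (coords k y') K'' := by
    refine alg_over (adjoin_norm hz.gen hz1) _ fun m => ?_
    exact halgs K'' S (fun ϑ hϑ => hSΘ _ ⟨ϑ, Or.inr (Or.inl hϑ), rfl⟩) y' hy'
      (fun m => algebraMap E K'' (z m / z i1)) hSx m
  have htr' : Algebra.trdeg k K'' = w' := by rw [trdeg_alg (E := E), htr]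
  have hC : HasCirc k s N w' K'' := by
    refine hopen K'' (S.res (K0 := K)) (fun ϑ hϑ => hSΘ _ ⟨ϑ, Or.inl hϑ, rfl⟩) y' hy' w' htr'
      halg
  have hwL : Algebra.trdeg k L = w := by
    rw [← hy.dim, ← trdeg_alg (E := K) (K := K'), trdeg_alg (E := L) (K := K')]
  have hle : w' ≤ w := dim_le (adjoin_norm hz.gen hz1) hsp hwL htr
  refine general_below hw1 (hrk.trans hr) hC ?_
  rw [tn_eq]
  refine le_trans ?_ hN
  exact Nat.mul_le_mul_left _ (Nat.mul_le_mul_right _ hle)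

/-- constant points have constant coordinate fields -/
theorem coords_cst {n : ℕ} {E : Type} [Field E] [Algebra ℂ E] {i0 : Fin (n + 1)}
    {y : Fin (n + 1) → E} (hi0 : y i0 ≠ 0) (h : Cst i0 y) : coords ℂ y = ⊥ := by
  rw [eq_bot_iff]
  unfold Pool.Agent.W602.GT.coords
  rw [IntermediateField.adjoin_le_iff]
  rintro _ ⟨i, j, hj, rfl⟩
  obtain ⟨c, hc⟩ := h i
  obtain ⟨c', hc'⟩ := h j
  rw [SetLike.mem_coe, IntermediateField.mem_bot]
  refine ⟨c / c', ?_⟩
  have h1 : algebraMap ℂ E c' ≠ 0 := by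
    intro h0
    rw [h0, zero_mul] at hc'
    exact hj hc'
  rw [hc, hc', map_div₀]
  field_simp

/-- values of forms at the point of the field of meromorphic functions -/
theorem val_cl {M : ℕ} {f : Fin (M + 1) → ℂ → ℂ} (hf : ∀ i, Meromorphic (f i))
    (G : MvPolynomial (Fin (M + 1)) ℂ) :
    val (fun i => cl (f i) (hf i)) G =
      cl (fun t => MvPolynomial.eval (fun i => f i t) G) (mero_eval hf G) := by
  unfold Pool.Agent.W602.GT.val
  let u : Fin (M + 1) → MerS := fun i => ⟨f i, hf i⟩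
  have h1 : ((Ideal.Quotient.mkₐ ℂ MJ).comp (MvPolynomial.aeval u)) =
      MvPolynomial.aeval (fun i => cl (f i) (hf i)) := by
    apply MvPolynomial.algHom_ext
    intro i
    rw [AlgHom.comp_apply, MvPolynomial.aeval_X, MvPolynomial.aeval_X]
    rfl
  rw [← h1, AlgHom.comp_apply]
  change Ideal.Quotient.mk MJ _ = Ideal.Quotient.mk MJ _
  congr 1
  apply Subtype.ext
  funext t
  have h2 : (evS t).comp (MvPolynomial.aeval u) = MvPolynomial.aeval (fun i => f i t) := by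
    apply MvPolynomial.algHom_ext
    intro i
    rw [AlgHom.comp_apply, MvPolynomial.aeval_X, MvPolynomial.aeval_X]
    rfl
  have h3 := DFunLike.congr_fun h2 G
  rw [AlgHom.comp_apply] at h3
  exact h3.trans (by rw [MvPolynomial.aeval_eq_eval])

/-- **Entire curves.** -/
theorem brody_main {n : ℕ} {ι : Type}
    [Finite ι] {F : ι → MvPolynomial (Fin (n + 1)) ℂ} {s N r : ℕ} (hF : HighPowers s N F)
    (hN : NB r s ≤ N) {K : Type} [Field K] [Algebra ℂ K] {w : ℕ} {y : Fin (n + 1) → K}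
    (hy : SubVar F K w y) (hL : ¬ LinMv F y) (hW : ¬ WtMv F y)
    {K' L : Type} [Field K'] [Field L] [Algebra ℂ K'] [Algebra ℂ L] [Algebra K K']
    [Algebra L K'] [IsScalarTower ℂ K K'] [IsScalarTower ℂ L K'] [Algebra.IsAlgebraic K K']
    [FiniteDimensional L K'] (hr : Module.finrank L K' ≤ r) {M : ℕ} {x : Fin (M + 1) → L}
    (hx : x ≠ 0) (hgen : coords ℂ x = ⊤) : PseudoBrody x := by
  classical
  obtain ⟨i1, hi1'⟩ := Function.ne_iff.1 hx
  have hi1 : x i1 ≠ 0 := hi1'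
  obtain ⟨i0, hi0'⟩ := Function.ne_iff.1 hy.ne
  have hi0 : y i0 ≠ 0 := hi0'
  obtain ⟨Θ1, hΘ1, hopen⟩ := open_ana hF hN hy.mem hi0 hL hW
  obtain ⟨Θ2, hΘ2, halgs⟩ := alg_spec (K' := K') hy.gen hi0
    (fun m => algebraMap L K' (x m / x i1))
  obtain ⟨H, hH, hspread⟩ := spread (K' := K') (adjoin_norm hgen hi1)
    (Θ := algebraMap K K' '' (Θ1 ∪ (Θ2 ∪ (Set.range y ∪ {(y i0)⁻¹}))))
    ((hΘ1.union (hΘ2.union ((Set.finite_range y).union (Set.finite_singleton _)))).image _)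
  refine ⟨MvPolynomial.X i1 * hz i1 H, ?_, ?_, ?_⟩
  · obtain ⟨d, hd⟩ := hz_form i1 H
    exact ⟨1 + d, (MvPolynomial.isHomogeneous_X ℂ i1).mul hd⟩
  · change MvPolynomial.aeval x _ ≠ 0
    rw [map_mul, MvPolynomial.aeval_X]
    refine mul_ne_zero hi1 ?_
    change val x _ ≠ 0
    rw [val_hz H hi1]
    exact mul_ne_zero (pow_ne_zero _ hi1) hH
  intro f hf t0
  by_contra hft
  have hmer : ∀ i, Meromorphic (f i) := fun i t =>
    ((hf.hol i).analyticAt t).meromorphicAt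
  obtain ⟨z, hzdef⟩ : ∃ z : Fin (M + 1) → MK, z = fun i => cl (f i) (hmer i) := ⟨_, rfl⟩
  have hcont : ∀ G : MvPolynomial (Fin (M + 1)) ℂ,
      Continuous fun t => MvPolynomial.eval (fun i => f i t) G := fun G =>
    (MvPolynomial.continuous_eval G).comp (continuous_pi fun i => (hf.hol i).continuous)
  have hvz : ∀ G, val z G = 0 ↔ ∀ t, MvPolynomial.eval (fun i => f i t) G = 0 := by
    intro G
    rw [hzdef, val_cl hmer G, cl_eq_zero]
    constructor
    · intro h t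
      exact eq_of_codis (g := fun _ => 0) h (hcont G).continuousAt continuousAt_const
    · intro h
      exact Eventually.of_forall h
  have hzR : val z (MvPolynomial.X i1 * hz i1 H) ≠ 0 := by
    intro h0
    exact hft ((hvz _).1 h0 t0)
  change MvPolynomial.aeval z _ ≠ 0 at hzR
  rw [map_mul, MvPolynomial.aeval_X] at hzR
  have hz1 : z i1 ≠ 0 := left_ne_zero_of_mul hzR
  have hzH : MvPolynomial.aeval (fun i => z i / z i1) H ≠ 0 := by
    have h1 : val z (Pool.Agent.TH466.QG.hz i1 H) ≠ 0 := right_ne_zero_of_mul hzR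
    rw [val_hz H hz1] at h1
    exact right_ne_zero_of_mul h1
  have hsp : ∀ G : MvPolynomial (Fin (M + 1)) ℂ,
      MvPolynomial.aeval (fun i => x i / x i1) G = 0 →
      MvPolynomial.aeval (fun i => z i / z i1) G = 0 := by
    intro G hG
    have h1 : val x (Pool.Agent.TH466.QG.hz i1 G) = 0 := by
      rw [val_hz G hi1, hG, mul_zero]
    have h2 := (hvz _).2 (hf.mem _ (hz_form i1 G) h1)
    rw [val_hz G hz1] at h2
    exact (mul_eq_zero.1 h2).resolve_left (pow_ne_zero _ hz1)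
  obtain ⟨K'', i1', i2', i3', i4', i5', hrk, S, hSx, hSΘ⟩ := hspread MK
    (fun i => z i / z i1) hsp hzH
  have hSy : ∀ i, ∃ t, S.T (algebraMap K K' (y i)) t := fun i =>
    hSΘ _ ⟨y i, Or.inr (Or.inr (Or.inl ⟨i, rfl⟩)), rfl⟩
  choose y' hy' using hSy
  have hcst : Cst i0 y' := hopen K'' (hrk.trans hr) (S.res (K0 := K))
    (fun ϑ hϑ => hSΘ _ ⟨ϑ, Or.inl hϑ, rfl⟩) y' hy'
  have hi0y : y' i0 ≠ 0 := (S.res (K0 := K)).ne_zero (hy' i0)
    (hSΘ _ ⟨(y i0)⁻¹, Or.inr (Or.inr (Or.inr rfl)), rfl⟩) hi0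
  have hbot := coords_cst hi0y hcst
  have hall : ∀ m, ∃ c : ℂ, z m = algebraMap ℂ MK c * z i1 := by
    intro m
    have h1 := halgs K'' S (fun ϑ hϑ => hSΘ _ ⟨ϑ, Or.inr (Or.inl hϑ), rfl⟩) y' hy'
      (fun m => algebraMap MK K'' (z m / z i1)) hSx m
    rw [hbot] at h1
    have h2 : IsAlgebraic ℂ (algebraMap MK K'' (z m / z i1)) := h1.restrictScalars ℂ
    obtain ⟨c, hc⟩ := const_of_algebraic h2
    refine ⟨c, ?_⟩
    rw [IsScalarTower.algebraMap_apply ℂ MK K''] at hc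
    have h3 := (algebraMap MK K'').injective hc
    rw [← h3]
    field_simp
  have hallf : ∀ m, ∃ c : ℂ, ∀ t, f m t = c * f i1 t := by
    intro m
    obtain ⟨c, hc⟩ := hall m
    refine ⟨c, fun t => ?_⟩
    rw [hzdef] at hc
    simp only at hc
    rw [← cl_const, cl_mul, cl_eq] at hc
    exact eq_of_codis (f := f m) (g := fun t => c * f i1 t) hc (hf.hol m).continuous.continuousAt
      ((continuous_const.mul (hf.hol i1).continuous).continuousAt)
  obtain ⟨i, j, a, b, hab⟩ := hf.nonconst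
  obtain ⟨c, hc⟩ := hallf i
  obtain ⟨c', hc'⟩ := hallf j
  apply hab
  rw [hc, hc, hc', hc']
  ring

end Pool.Agent.Y221.BD
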