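import Pool.Agent.Y221.BD.Mv
import Pool.Agent.Y221.AB.Ab2

/-!
The dichotomy for algebroid points: constant, or moved by linear or diagonal motions.
-/

set_option autoImplicit false
set_option maxHeartbeats 400000
set_option linter.overlappingInstances false
set_option linter.unusedSectionVars false

open IntermediateField Pool.Agent.W603.LV

namespace Pool.Agent.Y221.BD

open Pool.Agent.W602.GT Pool.Agent.TH466.QG Pool.Agent.Y221.AB Pool.Agent.TH143.EL

variable {n : ℕ} {ι : Type}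

variable {E : Type} [Field E] [Algebra MK E] [Algebra ℂ E] [IsScalarTower ℂ MK E]
  [FiniteDimensional MK E]

/-- the point is constant -/
def Cst {K : Type} [Field K] [Algebra ℂ K] (i0 : Fin (n + 1)) (y : Fin (n + 1) → K) : Prop :=
  ∀ i, ∃ c : ℂ, y i = algebraMap ℂ K c * y i0

/-- the vector field -/
theorem exists_vec {i0 : Fin (n + 1)} {y : Fin (n + 1) → E} (hi0 : y i0 ≠ 0)
    (h : ¬ Cst i0 y) : ∃ D : Derivation ℂ E E, ∃ i, D (y i / y i0) ≠ 0 := by
  obtain ⟨D₁, hD⟩ := exists_der E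
  refine ⟨D₁, ?_⟩
  by_contra hcon
  push Not at hcon
  apply h
  intro i
  obtain ⟨c, hc⟩ := const_ext hD (hcon i)
  refine ⟨c, ?_⟩
  rw [← hc]
  field_simp

/-- sums of powers of linear forms -/
theorem ana_war {r0 s N : ℕ} (hfin : Module.finrank MK E ≤ r0) (hN : NB r0 s ≤ N)
    {r d : ι → ℕ} {l : ∀ e, Fin (r e) → Fin (n + 1) → ℂ} (hr : ∀ e, r e ≤ s)
    (hd : ∀ e, N ≤ d e) {y : Fin (n + 1) → E} {i0 : Fin (n + 1)} (hi0 : y i0 ≠ 0)
    (hyF : ∀ e, ∑ j, lin (l e j) y ^ d e = 0) : Cst i0 y ∨ WAlt l d i0 y := by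
  classical
  by_cases hc : Cst i0 y
  · exact Or.inl hc
  right
  obtain ⟨D, i1, hi1⟩ := exists_vec hi0 hc
  have hN1 : 1 ≤ N := (one_le_NB r0 s).trans hN
  have hd0 : ∀ e, 0 < d e := fun e => lt_of_lt_of_le hN1 (hd e)
  let v : Fin (n + 1) → E := fun j => y i0 * D (y j / y i0)
  refine ⟨fun e i j => CProp (lin (l e i.1) y) (lin (l e j.1) y), v,
    fun e => ⟨fun i => CProp.refl _, fun h => h.symm, fun h h' => h.trans h'⟩, ?_, ?_, ?_, ?_, ?_⟩
  · intro e j0 A hA
    have hsum : ∑ j : {j // lin (l e j) y ≠ 0}, (1 : ℂ) • lin (l e j.1) y ^ d e = 0 := by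
      simp only [one_smul]
      refine Eq.trans ?_ (hyF e)
      rw [← Finset.sum_subtype (Finset.univ.filter fun j => lin (l e j) y ≠ 0) (by simp)
        (fun j => lin (l e j) y ^ d e), Finset.sum_filter_of_ne]
      intro j _ hj h0
      exact hj (by rw [h0, zero_pow (hd0 e).ne'])
    have hcard : Fintype.card {j // lin (l e j) y ≠ 0} ≤ s :=
      (Fintype.card_subtype_le _).trans (by rw [Fintype.card_fin]; exact hr e)
    have h1 := bor_cls hfin hcard (hN.trans (hd e)) (u := fun j : {j // lin (l e j) y ≠ 0} =>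
      lin (l e j.1) y) (fun j => j.2) (fun _ => 1) hsum j0 A hA
    simpa only [one_smul] using h1
  · change y i0 * D (y i0 / y i0) = 0
    rw [div_self hi0, Derivation.map_one_eq_zero, mul_zero]
  · intro h0
    have h1 := congrFun h0 i1
    exact hi1 ((mul_eq_zero.1 h1).resolve_left hi0)
  · intro e j hj
    change lin (l e j) (fun j => y i0 * D (y j / y i0)) = 0
    rw [Pool.Agent.TH466.QG.lin_der, hj, zero_div, map_zero, mul_zero]
  · intro e i j hij
    obtain ⟨c, -, hc'⟩ := hij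
    change lin (l e i.1) (fun j => y i0 * D (y j / y i0)) * _ =
      lin (l e j.1) (fun j => y i0 * D (y j / y i0)) * _
    rw [Pool.Agent.TH466.QG.lin_der, Pool.Agent.TH466.QG.lin_der, hc', mul_div_assoc,
      ← Algebra.smul_def, D.map_smul, Algebra.smul_def]
    ring

/-- sums of few monomials -/
theorem ana_sp {r0 s N : ℕ} (hfin : Module.finrank MK E ≤ r0) (hN : NB r0 s ≤ N)
    {F : ι → MvPolynomial (Fin (n + 1)) ℂ} (hF : ∀ e, IsPowSparse ∅ s N (F e))
    {y : Fin (n + 1) → E} {i0 : Fin (n + 1)} (hi0 : y i0 ≠ 0) (hyF : ∀ e, val y (F e) = 0) :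
    Cst i0 y ∨ WtMv F y := by
  classical
  by_cases hc : Cst i0 y
  · exact Or.inl hc
  right
  obtain ⟨D, i1, hi1⟩ := exists_vec hi0 hc
  have hK : CharZero E := charZero_of_injective_algebraMap (algebraMap ℂ E).injective
  have hyi : y i1 ≠ 0 := by
    intro h0
    apply hi1
    rw [h0, zero_div, map_zero]
  have hlam : D (y i1) / y i1 ≠ D (y i0) / y i0 := by
    intro h0
    apply hi1
    rw [div_eq_mul_inv, D.leibniz, D.leibniz_inv]
    simp only [smul_eq_mul]
    field_simp at h0 ⊢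
    linear_combination h0
  obtain ⟨b, hb, hb2⟩ := int_weights (fun j => D (y j) / y j) hlam
  choose N' hN' hdvd using fun e => (hF e).2.2
  let T : ∀ e, (Fin (n + 1) →₀ ℕ) → E := fun e α => algebraMap ℂ E ((F e).coeff α) * ∏ j, y j ^ α j
  let J : ι → Type := fun e => {α : (F e).support // T e α ≠ 0}
  let g : ∀ e, J e → E := fun e α => T e α.1
  have hsub : ∀ (e : ι) (h : (Fin (n + 1) →₀ ℕ) → E), ∑ α ∈ (F e).support, h α * T e α =
      ∑ α : J e, h α.1 * g e α := by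
    intro e h
    rw [← Finset.sum_coe_sort (F e).support (fun α => h α * T e α)]
    rw [← Finset.sum_subtype (Finset.univ.filter fun α : (F e).support => T e α ≠ 0) (by simp)
      (fun α : (F e).support => h α * T e α), Finset.sum_filter_of_ne]
    intro α _ hα h0
    exact hα (by rw [h0, mul_zero])
  have hsum : ∀ e, ∑ j, g e j = 0 := by
    intro e
    have h1 := hsub e (fun _ => 1)
    simp only [one_mul] at h1
    rw [← h1, ← val_eq_sum]
    exact hyF e
  have hcard : ∀ e, Fintype.card (J e) ≤ s := fun e =>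
    (Fintype.card_subtype_le _).trans (by rw [Fintype.card_coe]; exact (hF e).2.1)
  have hN1 : 1 ≤ N := (one_le_NB r0 s).trans hN
  let U : ∀ e, J e → E := fun e α => ∏ l, y l ^ ((α.1 : Fin (n + 1) →₀ ℕ) l / N' e)
  have hUpow : ∀ e (α : J e), U e α ^ N' e = ∏ l, y l ^ ((α.1 : Fin (n + 1) →₀ ℕ) l) := by
    intro e α
    simp only [U]
    rw [← Finset.prod_pow]
    refine Finset.prod_congr rfl fun l _ => ?_
    rw [← pow_mul]
    congr 1
    exact Nat.div_mul_cancel (hdvd e _ α.1.2 l (Set.notMem_empty l))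
  have hval : ∀ e (α : J e), (F e).coeff (α.1 : Fin (n + 1) →₀ ℕ) • U e α ^ N' e = g e α := by
    intro e α
    rw [hUpow, Algebra.smul_def]
  have hU0 : ∀ e (α : J e), U e α ≠ 0 := by
    intro e α h0
    apply α.2
    change g e α = 0
    rw [← hval, h0, zero_pow (by have := hN' e; omega), smul_zero]
  refine ⟨b, i1, i0, hyi, hi0, hb, fun e v => ?_⟩
  rw [val_wc, Finset.sum_filter]
  have h1 := hsub e (fun α => if ∑ j, (α j : ℤ) * b j = v then 1 else 0)
  simp only [ite_mul, one_mul, zero_mul] at h1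
  rw [h1]
  have h2 := weighted_sum (fun α β : J e => CProp (U e α) (U e β))
    ⟨fun i => CProp.refl _, fun h => h.symm, fun h h' => h.trans h'⟩ (g e)
    (fun α => if ∑ j, ((α.1 : Fin (n + 1) →₀ ℕ) j : ℤ) * b j = v then 1 else 0) ?_ ?_
  · simpa only [ite_mul, one_mul, zero_mul] using h2
  · intro α β hαβ
    obtain ⟨c, -, hc'⟩ := hαβ
    have h3 : D (T e α.1) * T e β.1 = T e α.1 * D (T e β.1) := by
      have h4 : T e α.1 = algebraMap ℂ E ((F e).coeff (α.1 : Fin (n + 1) →₀ ℕ) * c ^ N' e) *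
          ∏ l, y l ^ ((β.1 : Fin (n + 1) →₀ ℕ) l) := by
        change g e α = _
        rw [← hval, hc', ← hUpow, mul_pow, Algebra.smul_def, map_mul, map_pow]
        ring
      have h5 : T e β.1 = algebraMap ℂ E ((F e).coeff (β.1 : Fin (n + 1) →₀ ℕ)) *
          ∏ l, y l ^ ((β.1 : Fin (n + 1) →₀ ℕ) l) := rfl
      rw [h4, h5, ← Algebra.smul_def, ← Algebra.smul_def, D.map_smul, D.map_smul]
      simp only [Algebra.smul_def]
      ring
    rw [der_mon D α.2, der_mon D β.2] at h3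
    have h4 : ∑ j, ((α.1 : Fin (n + 1) →₀ ℕ) j : E) * (D (y j) / y j) =
        ∑ j, ((β.1 : Fin (n + 1) →₀ ℕ) j : E) * (D (y j) / y j) := by
      apply mul_left_cancel₀ (mul_ne_zero α.2 β.2)
      linear_combination h3
    have h5 := hb2 (fun j => ((α.1 : Fin (n + 1) →₀ ℕ) j : ℤ) - ((β.1 : Fin (n + 1) →₀ ℕ) j : ℤ)) (by
      push_cast
      simp only [sub_mul, Finset.sum_sub_distrib]
      rw [h4, sub_self])
    simp only [sub_mul, Finset.sum_sub_distrib] at h5
    rw [sub_eq_zero.1 h5]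
  · intro j0 A hA
    have h3 : ∑ α : J e, (F e).coeff (α.1 : Fin (n + 1) →₀ ℕ) • U e α ^ N' e = 0 :=
      (Finset.sum_congr rfl fun α _ => hval e α).trans (hsum e)
    have h4 := bor_cls hfin (hcard e) (hN.trans (hN' e)) (hU0 e)
      (fun α : J e => (F e).coeff (α.1 : Fin (n + 1) →₀ ℕ)) h3 j0 A hA
    rw [← h4]
    exact Finset.sum_congr rfl fun α _ => (hval e α).symm

/-- **Openness for algebroid points.** -/
theorem open_ana [Finite ι] {F : ι → MvPolynomial (Fin (n + 1)) ℂ} {r0 s N : ℕ}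
    (hF : HighPowers s N F) (hN : NB r0 s ≤ N) {K : Type} [Field K] [Algebra ℂ K]
    {y : Fin (n + 1) → K} (hyF : ∀ e, val y (F e) = 0) {i0 : Fin (n + 1)} (hi0 : y i0 ≠ 0)
    (hL : ¬ LinMv F y) (hW : ¬ WtMv F y) :
    ∃ Θ : Set K, Θ.Finite ∧ ∀ (E : Type) [Field E] [Algebra MK E] [Algebra ℂ E]
      [IsScalarTower ℂ MK E] [FiniteDimensional MK E], Module.finrank MK E ≤ r0 →
      ∀ S : Sp ℂ K E, (∀ ϑ ∈ Θ, ∃ z, S.T ϑ z) → ∀ y' : Fin (n + 1) → E,
      (∀ i, S.T (y i) (y' i)) → Cst i0 y' := by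
  have hN1 : 1 ≤ N := (one_le_NB r0 s).trans hN
  rcases hF with h | h
  · choose r d l hr hd hFe using h
    obtain ⟨Θ, hΘ, hopen⟩ := open_warA (fun e => lt_of_lt_of_le hN1 (hd e)) hFe hyF hi0 hL
    refine ⟨Θ, hΘ, fun E _ _ _ _ _ hfin S hS y' hy' => ?_⟩
    obtain ⟨h1, h2, h3⟩ := hopen E S hS y' hy'
    exact (ana_war hfin hN hr hd h1 h2).resolve_right h3
  · obtain ⟨Θ, hΘ, hopen⟩ := open_spA hyF hi0 hW
    refine ⟨Θ, hΘ, fun E _ _ _ _ _ hfin S hS y' hy' => ?_⟩
    obtain ⟨h1, h2, h3⟩ := hopen E S hS y' hy'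
    exact (ana_sp hfin hN h h1 h2).resolve_right h3

/-- **Openness for function fields.** -/
theorem open_alg {k : Type} [Field k] [CharZero k] [IsAlgClosed k] [Finite ι]
    {F : ι → MvPolynomial (Fin (n + 1)) k} {s N : ℕ}
    (hF : HighPowers s N F) (hN1 : 1 ≤ N) {K : Type} [Field K] [Algebra k K]
    {y : Fin (n + 1) → K} (hyF : ∀ e, val y (F e) = 0) {i0 : Fin (n + 1)} (hi0 : y i0 ≠ 0)
    (hL : ¬ LinMv F y) (hW : ¬ WtMv F y) :
    ∃ Θ : Set K, Θ.Finite ∧ ∀ (K'' : Type) [Field K''] [Algebra k K''] (S : Sp k K K''),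
      (∀ ϑ ∈ Θ, ∃ z, S.T ϑ z) → ∀ y' : Fin (n + 1) → K'', (∀ i, S.T (y i) (y' i)) →
      ∀ w' : ℕ, Algebra.trdeg k K'' = w' → Algebra.IsAlgebraic (coords k y') K'' →
      HasCirc k s N w' K'' := by
  rcases hF with h | h
  · choose r d l hr hd hFe using h
    obtain ⟨Θ, hΘ, hopen⟩ := open_warA (fun e => lt_of_lt_of_le hN1 (hd e)) hFe hyF hi0 hL
    refine ⟨Θ, hΘ, fun K'' _ _ S hS y' hy' w' htr hgen => ?_⟩
    obtain ⟨h1, h2, h3⟩ := hopen K'' S hS y' hy'
    rcases waring_dich hr hd hN1 htr hgen h2 h1 with h4 | h4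
    · exact h4
    · exact absurd h4 h3
  · obtain ⟨Θ, hΘ, hopen⟩ := open_spA hyF hi0 hW
    refine ⟨Θ, hΘ, fun K'' _ _ S hS y' hy' w' htr hgen => ?_⟩
    obtain ⟨h1, h2, h3⟩ := hopen K'' S hS y' hy'
    rcases sparse_circ h htr hgen h2 with h4 | h4
    · exact h4
    · exact absurd h4 h3

end Pool.Agent.Y221.BD
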