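import Pool.Agent.TH466.QG.Strong

/-!
Openness: the specializations of the generic point of a closed subvariety which is not moved by
linear or diagonal motions.
-/

set_option autoImplicit false
set_option maxHeartbeats 400000
set_option linter.overlappingInstances false
set_option linter.unusedSectionVars false

open FF IntermediateField Pool.Agent.W603.LV

namespace Pool.Agent.Y221.BD

open Pool.Agent.W602.GT Pool.Agent.TH466.QG

variable {k : Type} [Field k] {n : ℕ} {ι : Type}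

/-- the generic point `y` moves along a line which is given by linear equations -/
def LinMv (F : ι → MvPolynomial (Fin (n + 1)) k) {K : Type} [Field K] [Algebra k K]
    (y : Fin (n + 1) → K) : Prop :=
  ∃ (i0 j0 : Fin (n + 1)) (v : Fin (n + 1) → K) (Z : Set (Fin (n + 1) → k))
    (Q : Set ((Fin (n + 1) → k) × (Fin (n + 1) → k))),
    y i0 ≠ 0 ∧ v i0 = 0 ∧ v j0 ≠ 0 ∧ (∀ l ∈ Z, lin l y = 0) ∧ (∀ l ∈ Z, lin l v = 0) ∧
    (∀ p ∈ Q, lin p.1 y ≠ 0 ∧ lin p.2 y ≠ 0) ∧
    (∀ p ∈ Q, lin p.1 v = (lin p.1 y / lin p.2 y) * lin p.2 v) ∧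
    ∀ (M : Type) [Field M] [Algebra k M] [Algebra K M] [IsScalarTower k K M]
      (x : Fin (n + 1) → M), (∀ l ∈ Z, lin l x = 0) →
      (∀ p ∈ Q, lin p.1 x = algebraMap K M (lin p.1 y / lin p.2 y) * lin p.2 x) →
      ∀ e, val x (F e) = 0

/-- the generic point `y` moves under a one-parameter group of diagonal matrices -/
def WtMv (F : ι → MvPolynomial (Fin (n + 1)) k) {K : Type} [Field K] [Algebra k K]
    (y : Fin (n + 1) → K) : Prop :=
  ∃ (b : Fin (n + 1) → ℤ) (i i' : Fin (n + 1)), y i ≠ 0 ∧ y i' ≠ 0 ∧ b i ≠ b i' ∧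
    ∀ e v, val y (wc b v (F e)) = 0

/-- the second alternative of the dichotomy for sums of powers of linear forms -/
def WAlt {r : ι → ℕ} (l : ∀ e, Fin (r e) → Fin (n + 1) → k) (d : ι → ℕ) (i0 : Fin (n + 1))
    {K : Type} [Field K] [Algebra k K] (y : Fin (n + 1) → K) : Prop :=
  ∃ (R : ∀ e, {j // lin (l e j) y ≠ 0} → {j // lin (l e j) y ≠ 0} → Prop)
    (v : Fin (n + 1) → K), (∀ e, Equivalence (R e)) ∧
    (∀ e j0 (A : Finset {j // lin (l e j) y ≠ 0}), (∀ j, j ∈ A ↔ R e j0 j) →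
      ∑ j ∈ A, lin (l e j.1) y ^ d e = 0) ∧ v i0 = 0 ∧ v ≠ 0 ∧
    (∀ e j, lin (l e j) y = 0 → lin (l e j) v = 0) ∧
    ∀ e i j, R e i j → lin (l e i.1) v * lin (l e j.1) y = lin (l e j.1) v * lin (l e i.1) y

variable [CharZero k] [IsAlgClosed k]

/-- openness for sums of powers of linear forms -/
theorem open_warA [Finite ι] {F : ι → MvPolynomial (Fin (n + 1)) k}
    {r d : ι → ℕ} {l : ∀ e, Fin (r e) → Fin (n + 1) → k} (hd0 : ∀ e, 0 < d e)
    (hFe : ∀ e, F e = ∑ j, (∑ i, MvPolynomial.C (l e j i) * MvPolynomial.X i) ^ d e)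
    {K : Type} [Field K] [Algebra k K] {y : Fin (n + 1) → K} (hyF : ∀ e, val y (F e) = 0)
    {i0 : Fin (n + 1)} (hi0 : y i0 ≠ 0) (hR : ¬ LinMv F y) :
    ∃ Θ : Set K, Θ.Finite ∧ ∀ (K'' : Type) [Field K''] [Algebra k K''] (S : Sp k K K''),
      (∀ ϑ ∈ Θ, ∃ z, S.T ϑ z) → ∀ y' : Fin (n + 1) → K'', (∀ i, S.T (y i) (y' i)) →
      y' i0 ≠ 0 ∧ (∀ e, ∑ j, lin (l e j) y' ^ d e = 0) ∧ ¬ WAlt l d i0 y' := by
  classical
  cases nonempty_fintype ι
  have hvalM : ∀ (M : Type) [Field M] [Algebra k M] (x : Fin (n + 1) → M) e,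
      val x (F e) = ∑ j, lin (l e j) x ^ d e := by
    intro M _ _ x e
    unfold Pool.Agent.W602.GT.val
    rw [hFe e, map_sum]
    refine Finset.sum_congr rfl fun j _ => ?_
    rw [map_pow, map_sum]
    simp only [map_mul, MvPolynomial.aeval_C, MvPolynomial.aeval_X]
    rfl
  let Ty : Type := ∀ e, Fin (r e) × Fin (r e) → Prop
  -- the coefficients
  have hco : ∀ τ : Ty, ∃ c : Fin (n + 1) → Idx r → K,
      (∀ m v, (∀ a, phiL l τ y a v = 0) → chiL y i0 m v = 0) →
      ∀ m, ∑ a, c m a • phiL l τ y a = chiL y i0 m := by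
    intro τ
    by_cases h : ∀ m v, (∀ a, phiL l τ y a v = 0) → chiL y i0 m v = 0
    · choose c hc using fun m => span_of_ker (phiL l τ y) (chiL y i0 m) (h m)
      exact ⟨c, fun _ => hc⟩
    · exact ⟨fun _ _ => 0, fun h' => absurd h' h⟩
  choose c hc using hco
  refine ⟨(⋃ τ : Ty, ⋃ m : Fin (n + 1), Set.range (c τ m)) ∪
    ((⋃ e, Set.range fun j => (lin (l e j) y)⁻¹) ∪
    ((⋃ e, Set.range fun A : Finset (Fin (r e)) => (∑ j ∈ A, lin (l e j) y ^ d e)⁻¹) ∪
    {(y i0)⁻¹})), ?_, ?_⟩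
  · refine Set.Finite.union ?_ (Set.Finite.union ?_ (Set.Finite.union ?_ (Set.finite_singleton _)))
    · exact Set.finite_iUnion fun τ => Set.finite_iUnion fun m => Set.finite_range _
    · exact Set.finite_iUnion fun e => Set.finite_range _
    · exact Set.finite_iUnion fun e => Set.finite_range _
  intro K'' _ _ S hS y' hyS
  have hS1 : ∀ (τ : Ty) m a, ∃ z, S.T (c τ m a) z := fun τ m a =>
    hS _ (Or.inl (Set.mem_iUnion.2 ⟨τ, Set.mem_iUnion.2 ⟨m, a, rfl⟩⟩))
  have hS2 : ∀ e j, ∃ z, S.T (lin (l e j) y)⁻¹ z := fun e j =>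
    hS _ (Or.inr (Or.inl (Set.mem_iUnion.2 ⟨e, j, rfl⟩)))
  have hS3 : ∀ e (A : Finset (Fin (r e))), ∃ z, S.T (∑ j ∈ A, lin (l e j) y ^ d e)⁻¹ z :=
    fun e A => hS _ (Or.inr (Or.inr (Or.inl (Set.mem_iUnion.2 ⟨e, A, rfl⟩))))
  have hS4 : ∃ z, S.T (y i0)⁻¹ z := hS _ (Or.inr (Or.inr (Or.inr rfl)))
  have hi0' : y' i0 ≠ 0 := S.ne_zero (hyS i0) hS4 hi0
  have hback : ∀ e j, lin (l e j) y' = 0 → lin (l e j) y = 0 := fun e j h =>
    S.back (S.lin hyS _) (hS2 e j) h
  have hforw : ∀ e j, lin (l e j) y' ≠ 0 → lin (l e j) y ≠ 0 := fun e j h h0 =>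
    h (S.eq_zero (S.lin hyS _) h0)
  have hyF' : ∀ e, ∑ j, lin (l e j) y' ^ d e = 0 := by
    intro e
    have h1 := S.sum Finset.univ (f := fun j => lin (l e j) y ^ d e)
      (f' := fun j => lin (l e j) y' ^ d e) fun j _ => S.pow (S.lin hyS _) _
    refine S.eq_zero h1 ?_
    rw [← hvalM]
    exact hyF e
  refine ⟨hi0', hyF', ?_⟩
  rintro ⟨R, v, hRe, hRs, hv0, hv, hZ, hQ⟩
  let τ : Ty := fun e p => ∃ (h1 : lin (l e p.1) y' ≠ 0) (h2 : lin (l e p.2) y' ≠ 0),
    R e ⟨p.1, h1⟩ ⟨p.2, h2⟩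
  have hτd : ∀ e j, τ e (j, j) ↔ lin (l e j) y' ≠ 0 := fun e j =>
    ⟨fun h => h.1, fun h => ⟨h, h, (hRe e).refl _⟩⟩
  -- the type is good
  have hgood : ∀ m u, (∀ a, phiL l τ y a u = 0) → chiL y i0 m u = 0 := by
    by_contra hcon
    push Not at hcon
    obtain ⟨m, u, hu, hm⟩ := hcon
    apply hR
    have huZ : ∀ e j, lin (l e j) y' = 0 → lin (l e j) u = 0 := by
      intro e j hj
      have h1 := hu (Sum.inl ⟨e, j⟩)
      simp only [phiL] at h1
      rw [if_neg (fun h => (hτd e j).1 h hj), linL_apply] at h1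
      exact h1
    have huQ : ∀ e i j, τ e (i, j) → lin (l e j) y * lin (l e i) u =
        lin (l e i) y * lin (l e j) u := by
      intro e i j hij
      have h1 := hu (Sum.inr ⟨e, (i, j)⟩)
      simp only [phiL] at h1
      rw [if_pos hij] at h1
      simp only [LinearMap.sub_apply, LinearMap.smul_apply, smul_eq_mul, linL_apply] at h1
      exact sub_eq_zero.1 h1
    let v0 : Fin (n + 1) → K := fun i => 1 * u i + (-(u i0 / y i0)) * y i
    have hv0l : ∀ L : Fin (n + 1) → k, lin L v0 = lin L u - u i0 / y i0 * lin L y := by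
      intro L
      simp only [v0]
      rw [lin_add_smul]
      ring
    refine ⟨i0, m, v0, {z | ∃ e j, lin (l e j) y' = 0 ∧ z = l e j},
      {p | ∃ e i j, τ e (i, j) ∧ p = (l e i, l e j)}, hi0, ?_, ?_, ?_, ?_, ?_, ?_, ?_⟩
    · simp only [v0]
      field_simp
      ring
    · intro h0
      apply hm
      rw [chiL_apply]
      simp only [v0] at h0
      field_simp at h0
      linear_combination h0
    · rintro _ ⟨e, j, hj, rfl⟩
      exact hback e j hj
    · rintro _ ⟨e, j, hj, rfl⟩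
      rw [hv0l, huZ e j hj, hback e j hj]
      ring
    · rintro _ ⟨e, i, j, ⟨h1, h2, -⟩, rfl⟩
      exact ⟨hforw _ _ h1, hforw _ _ h2⟩
    · rintro _ ⟨e, i, j, hij, rfl⟩
      have h1 : lin (l e i) y ≠ 0 := hforw _ _ hij.1
      have h2 : lin (l e j) y ≠ 0 := hforw _ _ hij.2.1
      have h3 := huQ e i j hij
      simp only
      rw [hv0l, hv0l]
      field_simp
      linear_combination (y i0) * h3
    · intro M _ _ _ _ x hxZ hxQ e
      rw [hvalM]
      have hcl : ∀ (j0 : {j // lin (l e j) y' ≠ 0}) (A : Finset {j // lin (l e j) y' ≠ 0}),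
          (∀ j, j ∈ A ↔ R e j0 j) → ∑ j ∈ A, lin (l e j.1) y ^ d e = 0 := by
        intro j0 A hA
        have h1 := hRs e j0 A hA
        have h2 : ∀ (M : Type) [Field M] [Algebra k M] (x : Fin (n + 1) → M),
            ∑ j ∈ A, lin (l e j.1) x ^ d e =
              ∑ j ∈ A.map (Function.Embedding.subtype _), lin (l e j) x ^ d e := by
          intro M _ _ x
          rw [Finset.sum_map]
          rfl
        rw [h2] at h1 ⊢
        refine S.back ?_ (hS3 e _) h1
        exact S.sum _ fun j _ => S.pow (S.lin hyS _) _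
      have hx0 : ∀ j, lin (l e j) y' = 0 → lin (l e j) x = 0 := fun j hj =>
        hxZ _ ⟨e, j, hj, rfl⟩
      have h0 : ∑ j, lin (l e j) x ^ d e =
          ∑ j : {j // lin (l e j) y' ≠ 0}, lin (l e j.1) x ^ d e := by
        rw [← Finset.sum_subtype (Finset.univ.filter fun j => lin (l e j) y' ≠ 0) (by simp)
          (fun j => lin (l e j) x ^ d e), Finset.sum_filter_of_ne]
        intro j _ hj hj0
        exact hj (by rw [hx0 j hj0, zero_pow (hd0 e).ne'])
      rw [h0]
      have hy0 : ∀ j : {j // lin (l e j) y' ≠ 0}, algebraMap K M (lin (l e j.1) y) ≠ 0 := by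
        intro j
        rw [Ne, map_eq_zero]
        exact hforw _ _ j.2
      have h1 := weighted_sum (R e) (hRe e) (fun j : {j // lin (l e j) y' ≠ 0} =>
          algebraMap K M (lin (l e j.1) y ^ d e))
        (fun j => (lin (l e j.1) x / algebraMap K M (lin (l e j.1) y)) ^ d e)
        (fun i j hij => by
          have h2 := hxQ (l e i.1, l e j.1) ⟨e, i.1, j.1, ⟨i.2, j.2, hij⟩, rfl⟩
          simp only at h2
          rw [map_div₀] at h2
          have := hy0 i
          have := hy0 j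
          congr 1
          rw [h2]
          field_simp)
        (fun j0 A hA => by
          rw [← map_sum, hcl j0 A hA, map_zero])
      refine Eq.trans (Finset.sum_congr rfl fun j _ => ?_) h1
      have := hy0 j
      rw [map_pow, ← mul_pow]
      congr 1
      field_simp
  -- the contradiction
  apply hv
  funext m
  have h1 := comb_spec S (phiL l τ y) (chiL y i0 m) (phiL l τ y') (chiL y' i0 m)
    (phi_spec S l τ hyS) (chi_spec S hyS i0 m) (hc τ hgood m) (hS1 τ m) (v := v) ?_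
  · rw [chiL_apply, hv0, mul_zero, sub_zero] at h1
    exact (mul_eq_zero.1 h1).resolve_left hi0'
  · rintro (⟨e, j⟩ | ⟨e, i, j⟩)
    · simp only [phiL]
      split_ifs with h
      · rfl
      · rw [linL_apply]
        exact hZ e j (not_not.1 fun h0 => h ((hτd e j).2 h0))
    · simp only [phiL]
      split_ifs with h
      · obtain ⟨h1, h2, h3⟩ := h
        simp only [LinearMap.sub_apply, LinearMap.smul_apply, smul_eq_mul, linL_apply]
        have := hQ e ⟨i, h1⟩ ⟨j, h2⟩ h3
        simp only at this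
        linear_combination this
      · rfl

/-- openness for sums of few monomials -/
theorem open_spA [Finite ι] {F : ι → MvPolynomial (Fin (n + 1)) k}
    {K : Type} [Field K] [Algebra k K] {y : Fin (n + 1) → K} (hyF : ∀ e, val y (F e) = 0)
    {i0 : Fin (n + 1)} (hi0 : y i0 ≠ 0) (hR : ¬ WtMv F y) :
    ∃ Θ : Set K, Θ.Finite ∧ ∀ (K'' : Type) [Field K''] [Algebra k K''] (S : Sp k K K''),
      (∀ ϑ ∈ Θ, ∃ z, S.T ϑ z) → ∀ y' : Fin (n + 1) → K'', (∀ i, S.T (y i) (y' i)) →
      y' i0 ≠ 0 ∧ (∀ e, val y' (F e) = 0) ∧ ¬ WtMv F y' := by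
  classical
  refine ⟨(⋃ e, Set.range fun A : (F e).support.powerset =>
    (∑ α ∈ A.1, algebraMap k K ((F e).coeff α) * ∏ j, y j ^ α j)⁻¹) ∪ {(y i0)⁻¹},
    (Set.finite_iUnion fun e => Set.finite_range _).union (Set.finite_singleton _), ?_⟩
  intro K'' _ _ S hS y' hyS
  have hS1 : ∀ e (A : Finset (Fin (n + 1) →₀ ℕ)), A ⊆ (F e).support →
      ∃ z, S.T (∑ α ∈ A, algebraMap k K ((F e).coeff α) * ∏ j, y j ^ α j)⁻¹ z := fun e A hA =>
    hS _ (Or.inl (Set.mem_iUnion.2 ⟨e, ⟨A, Finset.mem_powerset.2 hA⟩, rfl⟩))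
  have hS4 : ∃ z, S.T (y i0)⁻¹ z := hS _ (Or.inr rfl)
  have hi0' : y' i0 ≠ 0 := S.ne_zero (hyS i0) hS4 hi0
  refine ⟨hi0', fun e => S.eq_zero (S.val hyS _) (hyF e), ?_⟩
  rintro ⟨b, i, i', hi, hi', hb, hwc⟩
  apply hR
  refine ⟨b, i, i', (fun h0 => hi (S.eq_zero (hyS i) h0)),
    (fun h0 => hi' (S.eq_zero (hyS i') h0)), hb, fun e v => ?_⟩
  have h1 := hwc e v
  rw [val_wc] at h1 ⊢
  refine S.back ?_ (hS1 e _ (Finset.filter_subset _ _)) h1
  exact S.sum _ fun α _ => S.mul (S.const _) (S.prod _ fun i _ => S.pow (hyS i) _)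

/-- a linear motion of a component: ruled -/
theorem LinMv.ruled {F : ι → MvPolynomial (Fin (n + 1)) k} {K : Type} [Field K] [Algebra k K]
    {w : ℕ} {y : Fin (n + 1) → K} (hy : SubVar F K w y) (hcomp : IsComponent F y)
    (h : LinMv F y) : Ruled k K := by
  obtain ⟨i0, j0, v, Z, Q, h1, h2, h3, h4, h5, h6, h7, h8⟩ := h
  exact flow_of_vec hy hcomp h1 v h2 h3 Z Q h4 h5 h6 h7 h8

/-- a diagonal motion of a component: ruled -/
theorem WtMv.ruled {F : ι → MvPolynomial (Fin (n + 1)) k} {K : Type} [Field K] [Algebra k K]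
    {w : ℕ} {y : Fin (n + 1) → K} (hy : SubVar F K w y) (hcomp : IsComponent F y)
    (h : WtMv F y) : Ruled k K := by
  obtain ⟨b, i, i', hi, hi', hb, hwc⟩ := h
  exact ruled_of_weights hy hcomp hi hi' hb hwc

/-- a linear motion: a line -/
theorem LinMv.curve {F : ι → MvPolynomial (Fin (n + 1)) k} {K : Type} [Field K] [Algebra k K]
    {y : Fin (n + 1) → K} (h : LinMv F y) : RatCurve F y := by
  obtain ⟨i0, j0, v, Z, Q, hi0, hv0, hj0, hZ, hzZ, hQ, hzQ, hx⟩ := h
  let P : Fin (n + 1) → Polynomial K := fun l =>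
    Polynomial.C (y l) + Polynomial.C (v l) * (Polynomial.X - 1)
  have hPe : ∀ t : K, (fun l => (P l).eval t) = fun l => 1 * y l + (t - 1) * v l := by
    intro t
    funext l
    simp only [P, Polynomial.eval_add, Polynomial.eval_mul, Polynomial.eval_C, Polynomial.eval_X,
      Polynomial.eval_sub, Polynomial.eval_one]
    ring
  refine ⟨P, fun i => ?_, ⟨j0, i0, fun h => ?_⟩, fun e => aeval_zero_of_eval fun t _ => ?_⟩
  · have := congrFun (hPe 1) i
    simp only [sub_self, zero_mul, one_mul, add_zero] at this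
    exact this
  · have h1 := congrArg (fun p : Polynomial K => p.coeff 1) h
    simp only [P, mul_sub, mul_one, Polynomial.coeff_mul_C, Polynomial.coeff_add,
      Polynomial.coeff_sub, Polynomial.coeff_C_mul, Polynomial.coeff_X_one,
      Polynomial.coeff_C_succ] at h1
    rw [hv0] at h1
    simp only [zero_add, sub_zero, zero_mul] at h1
    rcases mul_eq_zero.1 h1 with h2 | h2
    · exact hj0 h2
    · exact hi0 h2
  · rw [hPe]
    refine hx K _ (fun l hl => ?_) (fun p hp => ?_) e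
    · rw [Pool.Agent.W602.GT.lin_add_smul, hZ l hl, hzZ l hl, mul_zero, mul_zero, add_zero]
    · rw [Pool.Agent.W602.GT.lin_add_smul, Pool.Agent.W602.GT.lin_add_smul, hzQ p hp]
      have h2 := (hQ p hp).2
      simp only [Algebra.algebraMap_self, RingHom.id_apply]
      field_simp

/-- a diagonal motion: a monomial curve -/
theorem WtMv.curve {F : ι → MvPolynomial (Fin (n + 1)) k} (hF : ∀ e, IsForm (F e))
    {K : Type} [Field K] [Algebra k K] {y : Fin (n + 1) → K} (h : WtMv F y) :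
    RatCurve F y := by
  obtain ⟨b, i, i', hi, hi', hb, hwc⟩ := h
  obtain ⟨B, hB⟩ : ∃ B : ℤ, ∀ j, 0 ≤ b j + B := by
    refine ⟨∑ j, |b j|, fun j => ?_⟩
    have h1 := Finset.single_le_sum (f := fun j => |b j|) (fun _ _ => abs_nonneg _)
      (Finset.mem_univ j)
    have h2 := neg_abs_le (b j)
    have h3 : |b j| ≤ ∑ j, |b j| := h1
    linarith
  let β : Fin (n + 1) → ℕ := fun j => (b j + B).toNat
  have hβ : ∀ j, (β j : ℤ) = b j + B := fun j => Int.toNat_of_nonneg (hB j)
  let P : Fin (n + 1) → Polynomial K := fun j => Polynomial.C (y j) * Polynomial.X ^ β j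
  refine ⟨P, fun j => by simp [P], ⟨i, i', fun h => ?_⟩,
    fun e => aeval_zero_of_eval fun t ht => ?_⟩
  · have h1 : Polynomial.C (y i * y i') * Polynomial.X ^ β i =
        Polynomial.C (y i * y i') * Polynomial.X ^ β i' := by
      rw [Polynomial.C_mul]
      simp only [P] at h
      linear_combination h
    have h2 : Polynomial.C (y i * y i') ≠ 0 := by
      rw [Ne, Polynomial.C_eq_zero]
      exact mul_ne_zero hi hi'
    have h3 := congrArg Polynomial.natDegree (mul_left_cancel₀ h2 h1)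
    rw [Polynomial.natDegree_X_pow, Polynomial.natDegree_X_pow] at h3
    apply hb
    have h4 : (β i : ℤ) = β i' := by exact_mod_cast h3
    rw [hβ, hβ] at h4
    linarith
  · have h1 := Pool.Agent.W602.GT.val_orbit y b ht (F e) (hwc e)
    obtain ⟨dd, hdd⟩ := hF e
    have h2 : (fun j => (P j).eval t) = fun j => t ^ B * (t ^ b j * y j) := by
      funext j
      simp only [P, Polynomial.eval_mul, Polynomial.eval_C, Polynomial.eval_pow,
        Polynomial.eval_X]
      rw [← zpow_natCast, hβ, zpow_add₀ ht]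
      ring
    rw [h2]
    have h3 : val (fun j => t ^ B * (t ^ b j * y j)) (F e) =
        (t ^ B) ^ dd * val (fun j => t ^ b j * y j) (F e) := by
      unfold Pool.Agent.W602.GT.val
      rw [MvPolynomial.aeval_def, MvPolynomial.aeval_def, MvPolynomial.eval₂_eq,
        MvPolynomial.eval₂_eq, Finset.mul_sum]
      refine Finset.sum_congr rfl fun α hα => ?_
      have h4 : ∑ j ∈ α.support, α j = dd := by
        have h5 := hdd (MvPolynomial.mem_support_iff.1 hα)
        rw [Finsupp.weight_apply, Finsupp.sum] at h5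
        simpa using h5
      simp only [mul_pow]
      rw [Finset.prod_mul_distrib, Finset.prod_pow_eq_pow_sum, h4]
      ring
    rw [h3, h1, mul_zero]

end Pool.Agent.Y221.BD
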